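import Mathlib
import Pool.Agent.Work.MP_556fef_co.Defs
import Pool.Agent.Work.MP_556fef_co.Main

/-!
MP_556fef_co, Q1 (affirmative answer): for every finite set `P` of integral polynomials with
`p(0) = 0` and every finite colouring of `ℚ` there are nonzero rationals `x`, `y` such that
`{x, y, xy} ∪ {x + p(y) : p ∈ P}` is monochromatic; the same holds for finite sets of polynomials
with rational coefficients.
-/

namespace Pool.Agent.Results.MP_556fef_co.PolynomialShifts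

open Polynomial MP556fef

theorem result :
    (∀ P : Finset ℤ[X], (∀ p ∈ P, p.eval 0 = 0) → ∀ (r : ℕ) (c : ℚ → Fin r),
      ∃ x y : ℚ, x ≠ 0 ∧ y ≠ 0 ∧ ∃ t : Fin r, ∀ z ∈ SigmaSet (P : Set ℤ[X]) x y, c z = t) ∧
    (∀ P : Finset ℚ[X], (∀ p ∈ P, p.eval 0 = 0) → ∀ (r : ℕ) (c : ℚ → Fin r),
      ∃ x y : ℚ, x ≠ 0 ∧ y ≠ 0 ∧ c y = c x ∧ c (x * y) = c x ∧
        ∀ p ∈ P, c (x + p.eval y) = c x) := by
  classical
  have h2 : ∀ P : Finset ℚ[X], (∀ p ∈ P, p.eval 0 = 0) → ∀ (r : ℕ) (c : ℚ → Fin r),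
      ∃ x y : ℚ, x ≠ 0 ∧ y ≠ 0 ∧ c y = c x ∧ c (x * y) = c x ∧
        ∀ p ∈ P, c (x + p.eval y) = c x := by
    intro P hP r c
    exact MP556fef.main c P (fun p hp => by rw [coeff_zero_eq_eval_zero]; exact hP p hp)
  refine ⟨?_, h2⟩
  intro P hP r c
  obtain ⟨x, y, hx, hy, hcy, hcxy, hcp⟩ := h2 (P.image (fun p => p.map (Int.castRingHom ℚ)))
    (by
      intro q hq
      obtain ⟨p, hp, rfl⟩ := Finset.mem_image.1 hq
      rw [eval_map]
      have := hP p hp
      rw [eval₂_at_zero, coeff_zero_eq_eval_zero, this]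
      simp) r c
  refine ⟨x, y, hx, hy, c x, ?_⟩
  intro z hz
  rcases hz with hz | ⟨p, hp, rfl⟩
  · rcases hz with rfl | rfl | rfl
    · rfl
    · exact hcy
    · exact hcxy
  · have := hcp (p.map (Int.castRingHom ℚ)) (Finset.mem_image_of_mem _ hp)
    rw [eval_map] at this
    exact this

end Pool.Agent.Results.MP_556fef_co.PolynomialShifts
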